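import Pool.Agent.W477.GM.Stms

/-!
# GM-ZF1: Extensionality, Foundation, Pairing, Union are forced
-/

set_option autoImplicit false
set_option maxHeartbeats 1000000

namespace Pool.Agent.W477.GM.W160ZF1

open Pool.Agent.W477.GM

section names

variable {P : Type 1}

/-- index type -/
def idx : Nm P → Type
  | .mk ι _ _ => ι

/-- labels -/
def lb : (x : Nm P) → idx x → P → Prop
  | .mk _ U _ => U

/-- children -/
def chd : (x : Nm P) → idx x → Nm P
  | .mk _ _ x => x

theorem eta (x : Nm P) : x = Nm.mk (idx x) (lb x) (chd x) := by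
  cases x
  rfl

variable [PartialOrder P] [OrderTop P]

theorem rk_lt (x : Nm P) (i : idx x) : rk (chd x i) < rk x := by
  cases x with
  | mk ι U x =>
    show rk (x i) < ⨆ i, Order.succ (rk (x i))
    refine lt_of_lt_of_le (Order.lt_succ _) ?_
    exact Ordinal.le_iSup (fun i => Order.succ (rk (x i))) i

theorem fmem_iff (y x : Nm P) (p : P) : fmem y x p ↔
    ∀ q, q ≤ p → ∃ r, r ≤ q ∧ ∃ j, Lab (lb x j) r ∧ feq y (chd x j) r := by
  cases x
  exact Iff.rfl

end names

section

variable {P : Type 1} [PartialOrder P] [OrderTop P] {S : SysData P}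

theorem child' (H : HsF P S) {x : Nm P} (hx : HS S x) (i : idx x) : HS S (chd x i) := by
  cases x with
  | mk ι U x => exact H.child ι U x hx i

theorem ext (E : EqF P) (F : FcF P (HS S)) (H : HsF P S) (v : ℕ → Nm P) (hv : ∀ i, HS S (v i))
    (p : P) : Fc (HS S) .axExt v p := by
  intro q hq h
  show feq (v 0) (v 1) q
  have h2 : ∀ x, HS S x → ∀ r, r ≤ q → (fmem x (v 0) r ↔ fmem x (v 1) r) := by
    intro x hx r hr
    have h3 := (F.iff _ _ _ _).1 (h x hx) r hr
    have e0 : (Function.update v 2 x) 0 = v 0 := Function.update_of_ne (by decide) _ _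
    have e1 : (Function.update v 2 x) 1 = v 1 := Function.update_of_ne (by decide) _ _
    have e2 : (Function.update v 2 x) 2 = x := Function.update_self _ _ _
    change (fmem ((Function.update v 2 x) 2) ((Function.update v 2 x) 0) r ↔
      fmem ((Function.update v 2 x) 2) ((Function.update v 2 x) 1) r) at h3
    rw [e0, e1, e2] at h3
    exact h3
  have h0 := hv 0
  have h1 := hv 1
  rw [eta (v 0)] at h0 ⊢
  rw [eta (v 1)] at h1 ⊢
  refine E.ext _ _ _ _ _ _ q (fun i r hr hm => ?_) (fun j r hr hm => ?_)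
  · rw [← eta] at hm ⊢
    exact (h2 _ (H.child _ _ _ h0 i) r hr).1 hm
  · rw [← eta] at hm ⊢
    exact (h2 _ (H.child _ _ _ h1 j) r hr).2 hm

theorem found (E : EqF P) (F : FcF P (HS S)) (H : HsF P S) (v : ℕ → Nm P)
    (p : P) : Fc (HS S) .axFound v p := by
  intro q hq h
  have h1 : ∀ q', q' ≤ q → ∃ r, r ≤ q' ∧ ∃ y, HS S y ∧ fmem y (v 0) r := by
    intro q' hq'
    obtain ⟨r, hr, y, hy, hm⟩ := (F.ex _ _ _ _).1 h q' hq'
    have e0 : (Function.update v 1 y) 0 = v 0 := Function.update_of_ne (by decide) _ _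
    have e1 : (Function.update v 1 y) 1 = y := Function.update_self _ _ _
    change fmem ((Function.update v 1 y) 1) ((Function.update v 1 y) 0) r at hm
    rw [e0, e1] at hm
    exact ⟨r, hr, y, hy, hm⟩
  refine (F.ex _ _ _ _).2 fun q' hq' => ?_
  have key : ∀ o : Ordinal.{0}, ∀ r, r ≤ q' → ∀ y, HS S y → fmem y (v 0) r → rk y = o →
      ∃ r, r ≤ q' ∧ ∃ y, HS S y ∧ fmem y (v 0) r ∧
        ∀ r', r' ≤ r → ∀ z, HS S z → fmem z (v 0) r' → ∀ r'', r'' ≤ r' → ¬ fmem z y r'' := by
    intro o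
    induction o using WellFoundedLT.induction with
    | ind o ih =>
      intro r hr y hy hm ho
      by_cases hc : ∀ r', r' ≤ r → ∀ z, HS S z → fmem z (v 0) r' → ∀ r'', r'' ≤ r' →
        ¬ fmem z y r''
      · exact ⟨r, hr, y, hy, hm, hc⟩
      · push Not at hc
        obtain ⟨r', hr', z, hz, hzx, r'', hr'', hzy⟩ := hc
        rw [fmem_iff] at hzy
        obtain ⟨r3, hr3, j, -, hj⟩ := hzy r'' le_rfl
        have h3 : fmem (chd y j) (v 0) r3 :=
          E.mcongr z _ (v 0) _ r3 hj (E.refl _ _) (E.mmono _ _ r' _ (hr3.trans hr'') hzx)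
        exact ih (rk (chd y j)) (by rw [← ho]; exact rk_lt y j) r3
          (hr3.trans (hr''.trans (hr'.trans hr))) (chd y j) (child' H hy j) h3 rfl
  obtain ⟨r0, hr0, y0, hy0, hm0⟩ := h1 q' hq'
  obtain ⟨r, hr, y, hy, hm, hc⟩ := key (rk y0) r0 hr0 y0 hy0 hm0 rfl
  refine ⟨r, hr, y, hy, (F.and _ _ _ _).2 ⟨?_, ?_⟩⟩
  · show fmem ((Function.update v 1 y) 1) ((Function.update v 1 y) 0) r
    rw [Function.update_self, Function.update_of_ne (by decide)]
    exact hm
  · intro z hz r' hr' hzx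
    refine (F.neg _ _ _).2 fun r'' hr'' hzy => ?_
    have e0 : (Function.update (Function.update v 1 y) 2 z) 0 = v 0 := by
      rw [Function.update_of_ne (by decide), Function.update_of_ne (by decide)]
    have e1 : (Function.update (Function.update v 1 y) 2 z) 1 = y := by
      rw [Function.update_of_ne (by decide), Function.update_self]
    have e2 : (Function.update (Function.update v 1 y) 2 z) 2 = z := Function.update_self _ _ _
    change fmem ((Function.update (Function.update v 1 y) 2 z) 2)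
      ((Function.update (Function.update v 1 y) 2 z) 0) r' at hzx
    change fmem ((Function.update (Function.update v 1 y) 2 z) 2)
      ((Function.update (Function.update v 1 y) 2 z) 1) r'' at hzy
    rw [e0, e2] at hzx
    rw [e1, e2] at hzy
    exact hc r' hr' z hz hzx r'' hr'' hzy

theorem pair (F : FcF P (HS S)) (H : HsF P S) (R : PrF P) (v : ℕ → Nm P)
    (hv : ∀ i, HS S (v i)) (p : P) : Fc (HS S) .axPair v p := by
  refine (F.ex _ _ _ _).2 fun q hq => ⟨q, le_rfl, prN (v 0) (v 1), H.pr _ _ (hv 0) (hv 1), ?_⟩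
  intro w hw
  refine (F.iff _ _ _ _).2 fun s hs => ?_
  obtain ⟨u, hu⟩ : ∃ u, u = Function.update (Function.update v 2 (prN (v 0) (v 1))) 3 w :=
    ⟨_, rfl⟩
  have e0 : u 0 = v 0 := by
    rw [hu, Function.update_of_ne (by decide), Function.update_of_ne (by decide)]
  have e1 : u 1 = v 1 := by
    rw [hu, Function.update_of_ne (by decide), Function.update_of_ne (by decide)]
  have e2 : u 2 = prN (v 0) (v 1) := by
    rw [hu, Function.update_of_ne (by decide), Function.update_self]
  have e3 : u 3 = w := by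
    rw [hu, Function.update_self]
  rw [← hu, F.or]
  show fmem (u 3) (u 2) s ↔ ∀ q, q ≤ s → ∃ r, r ≤ q ∧ (feq (u 3) (u 0) r ∨ feq (u 3) (u 1) r)
  rw [e0, e1, e2, e3]
  exact R.mem_pr w (v 0) (v 1) s

/-- the formula of the union -/
def phU : Fm := .ex 3 (.and (.mem 3 0) (.mem 2 3))

theorem fc_phU (F : FcF P (HS S)) (u : ℕ → Nm P) (s : P) : Fc (HS S) phU u s ↔
    ∀ q, q ≤ s → ∃ r, r ≤ q ∧ ∃ y, HS S y ∧ fmem y (u 0) r ∧ fmem (u 2) y r := by
  unfold phU
  rw [F.ex]
  refine forall_congr' fun q => forall_congr' fun _ => exists_congr fun r =>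
    and_congr_right fun _ => exists_congr fun y => and_congr_right fun _ => ?_
  rw [F.and]
  have e0 : (Function.update u 3 y) 0 = u 0 := Function.update_of_ne (by decide) _ _
  have e2 : (Function.update u 3 y) 2 = u 2 := Function.update_of_ne (by decide) _ _
  have e3 : (Function.update u 3 y) 3 = y := Function.update_self _ _ _
  show fmem ((Function.update u 3 y) 3) ((Function.update u 3 y) 0) r ∧
    fmem ((Function.update u 3 y) 2) ((Function.update u 3 y) 3) r ↔ _
  rw [e0, e2, e3]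

theorem union (E : EqF P) (F : FcF P (HS S)) (H : HsF P S) (hS : SysAx S) (h4 : P_SET)
    (h5 : P_DEC) (v : ℕ → Nm P) (hv : ∀ i, HS S (v i)) (p : P) : Fc (HS S) .axUnion v p := by
  obtain ⟨x, hx⟩ : ∃ x, x = v 0 := ⟨_, rfl⟩
  have hxS : HS S x := by rw [hx]; exact hv 0
  obtain ⟨z, hz⟩ : ∃ z : (Σ i : idx x, idx (chd x i)) → Nm P, z = fun k => chd (chd x k.1) k.2 :=
    ⟨_, rfl⟩
  have hzS : ∀ k, HS S (z k) := by
    intro k
    rw [hz]
    exact child' H (child' H hxS k.1) k.2
  obtain ⟨w0, hw0⟩ : ∃ w0 : Nm P → ℕ → Nm P, w0 = fun w => Function.update (fun _ => x) 2 w :=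
    ⟨_, rfl⟩
  have w00 : ∀ w, w0 w 0 = x := fun w => by
    rw [hw0]; exact Function.update_of_ne (by decide) _ _
  have w02 : ∀ w, w0 w 2 = w := fun w => by
    rw [hw0]; exact Function.update_self _ _ _
  have w0n : ∀ w i, i ≠ 2 → w0 w i = x := fun w i hi => by
    rw [hw0]; exact Function.update_of_ne hi _ _
  obtain ⟨Y, hY, hYm⟩ := h4 P S hS (Σ i : idx x, idx (chd x i)) z
    (fun w p => Fc (HS S) phU (w0 w) p) hzS
    (fun y p q _ hq h => F.mono _ _ _ _ hq h)
    (fun y p _ h => F.dense _ _ _ h)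
    (fun y y' p _ _ he h => by
      refine F.congr _ _ _ _ (fun i => ?_) h
      by_cases hi : i = 2
      · subst hi
        rw [w02, w02]
        exact he
      · rw [w0n _ i hi, w0n _ i hi]
        exact E.refl _ _)
    (by
      obtain ⟨e, he⟩ := H.supp x hxS
      refine ⟨e, fun g hg y p _ h => ?_⟩
      have hgG := hS.fsub e g hg
      have h6 := (F.equiv g (fun t ht => H.act g hgG t ht)
        (fun t ht => H.act g⁻¹ (hS.inv g hgG) t ht) phU (w0 y) p).2 h
      refine F.congr _ _ _ _ (fun i => ?_) h6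
      by_cases hi : i = 2
      · subst hi
        rw [w02, w02]
        exact E.refl _ _
      · rw [w0n _ i hi, w0n _ i hi]
        exact he g hg _)
    (by
      obtain ⟨a1, ha1⟩ := H.liv x hxS
      obtain ⟨a2, ha2⟩ := H.livs _ z hzS
      refine ⟨max a1 a2, fun k p h => ?_⟩
      refine (h5 P S hS).1 _ _ _ _ (fun i => ?_) h
      by_cases hi : i = 2
      · subst hi
        rw [w02]
        exact H.liv_mono _ _ _ (le_max_right _ _) (ha2 k)
      · rw [w0n _ i hi]
        exact H.liv_mono _ _ _ (le_max_left _ _) ha1)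
    (fun y p _ h => by
      rw [fc_phU F] at h
      obtain ⟨r, hr, y1, hy1, hm1, hm2⟩ := h p le_rfl
      rw [w00] at hm1
      rw [w02] at hm2
      rw [fmem_iff] at hm1
      obtain ⟨r1, hr1, i, -, hi⟩ := hm1 r le_rfl
      have h7 : fmem y (chd x i) r1 :=
        E.mcongr y _ y1 _ r1 (E.refl _ _) hi (E.mmono _ _ r _ hr1 hm2)
      rw [fmem_iff] at h7
      obtain ⟨r2, hr2, j, -, hj⟩ := h7 r1 le_rfl
      refine ⟨r2, hr2.trans (hr1.trans hr), ⟨i, j⟩, ?_⟩
      rw [hz]
      exact hj)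
  refine (F.ex _ _ _ _).2 fun q hq => ⟨q, le_rfl, Y, hY, ?_⟩
  intro w hw
  refine (F.iff _ _ _ _).2 fun s hs => ?_
  obtain ⟨u, hu⟩ : ∃ u, u = Function.update (Function.update v 1 Y) 2 w :=
    ⟨_, rfl⟩
  have e0 : u 0 = v 0 := by
    rw [hu, Function.update_of_ne (by decide), Function.update_of_ne (by decide)]
  have e1 : u 1 = Y := by
    rw [hu, Function.update_of_ne (by decide), Function.update_self]
  have e2 : u 2 = w := by
    rw [hu, Function.update_self]
  rw [← hu]
  show fmem (u 2) (u 1) s ↔ Fc (HS S) phU u s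
  have h8 := hYm w s hw
  rw [fc_phU F, e0, e1, e2, h8]
  show Fc (HS S) phU (w0 w) s ↔ _
  rw [fc_phU F, w00, w02, hx]

end

theorem zf1_holds (h : P_EQ) (_h1 : P_ACT) (h2 : P_FC) (h3 : P_HS) (h4 : P_SET) (h5 : P_DEC)
    (h6 : P_PR) : P_ZF1 := by
  intro P _ _ S hS v hv p
  have E := h P
  have F := h2 P (HS S)
  have H := h3 P S hS
  have R := h6 P
  exact ⟨ext E F H v hv p, found E F H v p, pair F H R v hv p, union E F H hS h4 h5 v hv p⟩

end Pool.Agent.W477.GM.W160ZF1
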